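import Mathlib
import Pool.Agent.KS6_17.QPC.Main
import Pool.Graph.R_seed8.Helper292.ForceCH

/-!
# Non-selective q-points Tukey below Fubini iterates of p-points, from `cov(M) = 𝔠`

The ultrafilter notions (`IsPPoint`, `IsQPoint`, `IsSelective`, `Isomorphic`, `IsIterate`,
`TukeyLE`, `InfinitelyManySelectives`) are those of the library modules `Pool.Agent.V11279.QP`;
`IsIterate k` is: Fubini iterate of p-points of depth at most `k + 1`.
`CovMeagerEqContinuum` says that fewer than continuum many dense open subsets of the Baire space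
`ℕ → ℕ` always have a common point (that is, `cov(M) = 𝔠`). It follows from Martin's axiom and
from the continuum hypothesis (part 3), and it is compatible with every value of `𝔠` that
Martin's axiom allows.
-/

set_option autoImplicit false

namespace Pool.Agent.Results.MP_21276c_lc.CovMeager

open Set Cardinal
open Pool.Agent.V11279.QP Pool.Agent.KS6_17.QPC

/-- (1) Under `cov(M) = 𝔠` the statement Q1 fails: some Fubini iterate `U` of p-points has a
non-selective q-point `V` Tukey below it.
(2) Under `cov(M) = 𝔠`, for every set `S` of at most continuum many ultrafilters: there is a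
selective ultrafilter isomorphic to no member of `S`, and there is a non-selective q-point `V`
which is itself a Fubini iterate of p-points of depth at most 2 (so it is a counterexample with
`U = V`) and which is not an image (not Rudin-Keisler below) of any member of `S`.
(3) The continuum hypothesis implies `cov(M) = 𝔠`.
(4) Some notion of forcing preserves `ω₁` and forces the continuum hypothesis.
(5) In ZFC: some Fubini iterate of p-points is a non-selective q-point if and only if there are
infinitely many selective ultrafilters up to isomorphism. -/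
theorem result :
    (CovMeagerEqContinuum → ¬ ∀ (U V : Ultrafilter ℕ) (k : ℕ),
      IsIterate k U → IsQPoint V → TukeyLE V U → IsSelective V) ∧
    (CovMeagerEqContinuum → ∀ S : Set (Ultrafilter ℕ), #S ≤ 𝔠 →
      (∃ U : Ultrafilter ℕ, IsSelective U ∧ ∀ Z ∈ S, ¬ Isomorphic Z U) ∧
      ∃ V : Ultrafilter ℕ, IsIterate 1 V ∧ IsQPoint V ∧ TukeyLE V V ∧ ¬ IsSelective V ∧
        ∀ Z ∈ S, ∀ f : ℕ → ℕ, Z.map f ≠ V) ∧
    (Cardinal.aleph.{0} 1 = Cardinal.continuum.{0} → CovMeagerEqContinuum) ∧
    (∃ (P : Type) (_ : Preorder P), Nonempty P ∧ ∀ p : P,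
      p ∈ Pool.Agent.Helper292.ForceCH.OmegaOnePreserved P ∧
      p ∈ Pool.Agent.Helper292.ForceCH.CHHolds P) ∧
    ((∃ (V : Ultrafilter ℕ) (k : ℕ), IsIterate k V ∧ IsQPoint V ∧ ¬ IsSelective V) ↔
      InfinitelyManySelectives) := by
  refine ⟨?_, ?_, covMeager_of_CH, ?_, ?_, ?_⟩
  · intro hM h
    obtain ⟨V, h1, h2, h3, -⟩ := exists_counterexample hM ∅ (by simp)
    exact h3 (h V V 1 h1 h2 (tukeyLE_refl V))
  · intro hM S hS
    refine ⟨exists_selective_avoiding hM S hS, ?_⟩
    obtain ⟨V, h1, h2, h3, h4⟩ := exists_counterexample hM S hS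
    exact ⟨V, h1, h2, tukeyLE_refl V, h3, h4⟩
  · obtain ⟨P, i, h1, h2⟩ := Pool.Agent.Helper292.ForceCH.exists_forcing
    exact ⟨P, i, h1, fun p => ⟨(h2 p).1, (h2 p).2.2⟩⟩
  · rintro ⟨V, k, h1, h2, h4⟩
    by_contra hfin
    exact h4 (selective_of_iterate hfin h1 h2)
  · intro h
    obtain ⟨V, h1, h2, h4⟩ := exists_iterate h
    exact ⟨V, 1, h1, h2, h4⟩

end Pool.Agent.Results.MP_21276c_lc.CovMeager
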