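import Pool.Agent.KS6_4.QP.Uni
import Pool.Graph.R_seed8.Helper292.ForceCH

set_option autoImplicit false

/-!
# The q-points among the Fubini iterates of p-points, of arbitrary countable depth

Definitions from the library (`Pool.Graph.R_pool_sql_team_seeded_843ab51a.V11279.QPa`, `QPc`):
`IsPPoint`, `IsQPoint`, `IsSelective`, `Isomorphic` (a permutation of `ℕ` carries one ultrafilter to
the other), `fubini W Y` (the Fubini limit `lim_{n → W} Y n`, coded on `ℕ` by the pairing function),
`IsIterate k` (finite Fubini iterates of p-points of depth at most `k + 1`), `TukeyLE`,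
`InfinitelyManySelectives` (there is a sequence of pairwise nonisomorphic selective ultrafilters).
`IsTransIterate` (`Pool/Agent/KS6_4/QP/Str.lean`): the least class of ultrafilters on `ℕ` which
contains the p-points, is closed under isomorphism, and contains `lim_{n → W} Y n` whenever it
contains `W` and all `Y n`: all Fubini iterates of p-points of finite or countable infinite depth.
`OmegaOnePreserved P`, `CHHolds P` (`Pool.Graph.R_seed8.Helper292.ForceCH`): the sets of the
conditions of `P` which force that `ω₁` is preserved, and that the continuum hypothesis holds.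
-/

namespace Pool.Agent.Results.MP_21276c_lc.IteratesClassified

open Pool.Agent.V11279.QP Pool.Agent.KS6_4.QP

/-- In ZFC:

(1) A Fubini limit of p-points `Y n` along a nonprincipal ultrafilter `W` is a q-point if and only
if, for some `A ∈ W`, the `Y n`, `n ∈ A`, are selective and pairwise nonisomorphic.

(2) The nonselective q-points among the Fubini iterates of p-points of arbitrary countable depth are,
up to isomorphism, exactly the Fubini limits of pairwise nonisomorphic selective ultrafilters along
such iterates.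

(3) This representation is unique: the index ultrafilter up to an isomorphism, and then almost all
of the selective ultrafilters up to isomorphism.

(4) The ultrafilters Rudin-Keisler below such a limit are those isomorphic to it and those below
its index ultrafilter.

(5) There is such an iterate which is a nonselective q-point if and only if there are infinitely
many nonisomorphic selective ultrafilters; then the statement of the problem fails. All finite
iterates are in the class of (2).

(6) The Continuum Hypothesis, which can be forced, implies that there are infinitely many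
nonisomorphic selective ultrafilters. -/
theorem result :
    (∀ (W : Ultrafilter ℕ) (Y : ℕ → Ultrafilter ℕ), Nonprincipal W → (∀ n, IsPPoint (Y n)) →
      (IsQPoint (fubini W Y) ↔ ∃ A ∈ W, (∀ n ∈ A, IsSelective (Y n)) ∧
        ∀ n ∈ A, ∀ m ∈ A, n ≠ m → ¬ Isomorphic (Y n) (Y m))) ∧
    (∀ V : Ultrafilter ℕ, (IsTransIterate V ∧ IsQPoint V ∧ ¬ IsSelective V) ↔
      ∃ (W : Ultrafilter ℕ) (Y : ℕ → Ultrafilter ℕ) (φ : ℕ → ℕ),
        IsTransIterate W ∧ (∀ n, IsSelective (Y n)) ∧
          (∀ n m, n ≠ m → ¬ Isomorphic (Y n) (Y m)) ∧ Function.Injective φ ∧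
            V = (fubini W Y).map φ) ∧
    (∀ (W W' : Ultrafilter ℕ) (Y Y' : ℕ → Ultrafilter ℕ) (φ φ' : ℕ → ℕ), Nonprincipal W →
      (∀ n, IsSelective (Y n)) → (∀ n m, n ≠ m → ¬ Isomorphic (Y n) (Y m)) →
      (∀ n, IsSelective (Y' n)) → (∀ n m, n ≠ m → ¬ Isomorphic (Y' n) (Y' m)) →
      Function.Injective φ → Function.Injective φ' →
      (fubini W Y).map φ = (fubini W' Y').map φ' →
      ∃ p : Equiv.Perm ℕ, W.map p = W' ∧ {n | Isomorphic (Y n) (Y' (p n))} ∈ W) ∧
    (∀ (W : Ultrafilter ℕ) (Y : ℕ → Ultrafilter ℕ), (∀ n, IsSelective (Y n)) →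
      (∀ n m, n ≠ m → ¬ Isomorphic (Y n) (Y m)) → ∀ f : ℕ → ℕ,
        Isomorphic (fubini W Y) ((fubini W Y).map f) ∨
          ∃ c : ℕ → ℕ, (fubini W Y).map f = W.map c) ∧
    ((∀ (k : ℕ) (V : Ultrafilter ℕ), IsIterate k V → IsTransIterate V) ∧
      ((∃ V : Ultrafilter ℕ, IsTransIterate V ∧ IsQPoint V ∧ ¬ IsSelective V) ↔
        InfinitelyManySelectives) ∧
      (InfinitelyManySelectives → ∃ (U V : Ultrafilter ℕ) (k : ℕ),
        IsIterate k U ∧ IsQPoint V ∧ TukeyLE V U ∧ ¬ IsSelective V)) ∧
    ((Cardinal.aleph.{0} 1 = Cardinal.continuum.{0} → InfinitelyManySelectives) ∧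
      ∃ (P : Type) (_ : Preorder P), Nonempty P ∧ ∀ p : P,
        p ∈ Pool.Agent.Helper292.ForceCH.OmegaOnePreserved P ∧
        p ∈ Pool.Agent.Helper292.ForceCH.CHHolds P) := by
  refine ⟨?_, classification, ?_, fun W Y h1 h2 f => rk_below h1 h2 f,
    ⟨fun k V h => .of_iterate h, ⟨?_, ?_⟩, ?_⟩, infinitelyManySelectives_of_CH, ?_⟩
  · intro W Y hW hY
    exact ⟨criterion_mp hY, fun ⟨A, hA, h1, h2⟩ => criterion_mpr hW hA h1 h2⟩
  · intro W W' Y Y' φ φ' hW h1 h2 h3 h4 h5 h6 h7
    exact uniqueness hW h1 h2 h3 h4 h5 h6 h7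
  · rintro ⟨V, hV⟩
    obtain ⟨W, Y, φ, -, h1, h2, -, -⟩ := (classification V).1 hV
    exact ⟨Y, h1, h2⟩
  · intro h
    obtain ⟨V, h1, h2, h3⟩ := exists_iterate h
    exact ⟨V, .of_iterate h1, h2, h3⟩
  · intro h
    obtain ⟨V, h1, h2, h4⟩ := exists_iterate h
    exact ⟨V, V, 1, h1, h2, tukeyLE_refl V, h4⟩
  · obtain ⟨P, i, h1, h2⟩ := Pool.Agent.Helper292.ForceCH.exists_forcing
    exact ⟨P, i, h1, fun p => ⟨(h2 p).1, (h2 p).2.2⟩⟩

end Pool.Agent.Results.MP_21276c_lc.IteratesClassified
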